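import Mathlib
import Pool.Agent.helper9.Incl.Defs
import Pool.Agent.helper45.Inc.GrpFin

/-!
# Inclusive varieties of abelian groups with few inclusive subvarieties
-/

universe u

open Pool.Agent.helper9.Incl

/-- Let `V` be an inclusive variety of semigroups all of whose (nonempty) members are abelian
groups.

1. `V` has finitely many inclusive subvarieties if and only if there is `N` such that every member
of `V` has at most `N` elements.

2. `V` has at most countably many inclusive subvarieties if and only if every member of `V` is a
torsion group and only finitely many primes are orders of elements of members of `V`.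
Here `pw a n` is the power `a ^ (n + 1)`. -/
theorem Pool.Agent.Results.MP_999024_al.AbelianGroups.result
    (V : SgClass.{u}) (hV : IsInclVariety V)
    (hG : ∀ (S : Type u) [Semigroup S], V S →
      (∀ a b : S, a * b = b * a) ∧ ∀ a b : S, ∃ x, a * x = b) :
    ((InclSub V).Finite ↔
      ∃ N : ℕ, ∀ (S : Type u) [Semigroup S], V S → Set.encard (Set.univ : Set S) ≤ N) ∧
    ((InclSub V).Countable ↔
      (∀ (S : Type u) [Semigroup S], V S → ∀ a : S, ∃ n, pw a (n + 1) = a) ∧
      {p : ℕ | p.Prime ∧ ∃ (S : Type u) (_ : Semigroup S), V S ∧
        ∃ a : S, pw a p = a ∧ a * a ≠ a}.Finite) :=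
  ⟨Pool.Agent.helper45.Inc.abelian_finite_iff V hV
      (fun S _ hS => ⟨(hG S hS).1, (hG S hS).2⟩),
    Pool.Agent.helper45.Inc.abelian_countable_iff V hV
      (fun S _ hS => ⟨(hG S hS).1, (hG S hS).2⟩)⟩
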