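import Mathlib
import Pool.Agent.helper9.Incl.Defs
import Pool.Agent.helper9.Incl.Final

/-!
# Inclusive varieties with countably many inclusive subvarieties: necessary conditions
-/

universe u

open Pool.Agent.helper9.Incl

/-- Let `V` be an inclusive variety of semigroups whose lattice of inclusive subvarieties is finite
or countably infinite. Then

1. every semigroup in `V` is periodic;
2. only finitely many primes are orders of subgroups of semigroups in `V`;
3. either every product `a b` in a semigroup of `V` is equal to `a²`, to `b²` or to a product of at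
   least three factors `a`, `b`; or every element satisfies `a² = aⁿ` for some `n ≥ 3`, and for
   every cyclic sequence `s_0, …, s_{2k}` of odd length `2k + 1 ≥ 3` some product `s_i s_{i+1}` or
   `s_{i+1} s_i` is equal to a product of at least three of the `s_j`;
4. every element of a semigroup in `V` has index at most `5`. -/
theorem Pool.Agent.Results.MP_999024_al.CountableNecessary.result
    (V : SgClass.{u}) (hV : IsInclVariety V) (hc : (InclSub V).Countable) :
    (∀ (S : Type u) [Semigroup S], V S → ∀ a : S, ∃ m n : ℕ, m ≠ n ∧ pw a m = pw a n) ∧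
    {p : ℕ | p.Prime ∧ ∃ (S : Type u) (_ : Semigroup S), V S ∧
      ∃ a : S, pw a p = a ∧ a * a ≠ a}.Finite ∧
    ((∀ (S : Type u) [Semigroup S], V S → ∀ a b : S, a * b = a * a ∨ a * b = b * b ∨
        ∃ w : FreeSemigroup Bool, 3 ≤ w.length ∧
          a * b = FreeSemigroup.lift (fun c : Bool => cond c a b) w) ∨
      ((∀ (S : Type u) [Semigroup S], V S → ∀ a : S, ∃ n : ℕ, 2 ≤ n ∧ pw a 1 = pw a n) ∧
        ∀ (S : Type u) [Semigroup S], V S → ∀ k : ℕ, 0 < k → ∀ s : ZMod (2 * k + 1) → S,
          ∃ (i : ZMod (2 * k + 1)) (w : FreeSemigroup (ZMod (2 * k + 1))), 3 ≤ w.length ∧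
            (s i * s (i + 1) = FreeSemigroup.lift s w ∨
              s (i + 1) * s i = FreeSemigroup.lift s w))) ∧
    (∀ (S : Type u) [Semigroup S], V S → ∀ a : S, ∃ n : ℕ, 5 ≤ n ∧ pw a 4 = pw a n) :=
  necessary V hV hc
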