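import Mathlib
import Pool.Agent.helper9.Incl.Defs
import Pool.Agent.helper45.Inc.Main2

/-!
# Product-closed inclusive varieties with finitely or countably many inclusive subvarieties
-/

universe u

open Pool.Agent.helper9.Incl

/-- Let `V` be an inclusive variety of semigroups that is closed under products of two members
(for example an ordinary variety). Here `pw a n` is the power `a ^ (n + 1)`.

1. `V` has finitely many inclusive subvarieties if and only if all its members satisfy the identity
`x y z x y = x y`.

2. If `V` has at most countably many inclusive subvarieties, then the products in every member of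
`V` form a rectangular group: every product `x y` satisfies `(x y)^(n + 2) = x y` for some `n`, and
`e f e = e` for all idempotents `e`, `f`.

3. Suppose that the subgroups of the members of `V` are abelian. Then `V` has at most countably
many inclusive subvarieties if and only if

* the products in every member of `V` form a rectangular group,
* only finitely many primes are orders of elements of members of `V`, and
* the subgroups of the members have bounded exponent, or `x e f = x f` for all `x` and all
  idempotents `e`, `f` in all members, or `f e x = f x` for all `x` and all idempotents `e`, `f` in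
  all members. -/
theorem Pool.Agent.Results.MP_999024_al.ProductClosedAbelian.result
    (V : SgClass.{u}) (hV : IsInclVariety V)
    (hP : ∀ (S T : Type u) [Semigroup S] [Semigroup T], V S → V T → V (S × T)) :
    ((InclSub V).Finite ↔
      ∀ (S : Type u) [Semigroup S], V S → ∀ x y z : S, x * y * z * (x * y) = x * y) ∧
    ((InclSub V).Countable → ∀ (S : Type u) [Semigroup S], V S →
      (∀ x y : S, ∃ n, pw (x * y) (n + 1) = x * y) ∧
      ∀ e f : S, e * e = e → f * f = f → e * f * e = e) ∧
    ((∀ (S : Type u) [Semigroup S], V S → ∀ e x y : S, e * e = e → e * x = x → x * e = x →
        e * y = y → y * e = y → (∃ k, pw x k = e) → (∃ k, pw y k = e) → x * y = y * x) →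
      ((InclSub V).Countable ↔
        (∀ (S : Type u) [Semigroup S], V S → (∀ x y : S, ∃ n, pw (x * y) (n + 1) = x * y) ∧
          ∀ e f : S, e * e = e → f * f = f → e * f * e = e) ∧
        {p : ℕ | p.Prime ∧ ∃ (S : Type u) (_ : Semigroup S), V S ∧
          ∃ a : S, pw a p = a ∧ a * a ≠ a}.Finite ∧
        ((∃ m : ℕ, 0 < m ∧ ∀ (S : Type u) [Semigroup S], V S → ∀ a : S,
            (∃ k, pw a (k + 1) = a) → pw a m = a) ∨
          (∀ (S : Type u) [Semigroup S], V S → ∀ x e f : S, e * e = e → f * f = f →
            x * e * f = x * f) ∨
          (∀ (S : Type u) [Semigroup S], V S → ∀ x e f : S, e * e = e → f * f = f →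
            f * e * x = f * x)))) :=
  ⟨Pool.Agent.helper45.Inc.finite_iff hV hP,
    fun hc => Pool.Agent.helper45.Inc.rectSq_of_countable hV hP hc,
    fun hA => Pool.Agent.helper45.Inc.product_countable_iff hV hP hA⟩
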