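import Mathlib
import Pool.Agent.helper45.Sem.Dich

/-!
# The inclusive varieties of semilattices with countably many inclusive subvarieties
-/

universe u

open Pool.Agent.helper9.Incl Pool.Agent.helper45.Sem

/-- `SLC` is the class of all semilattices (commutative semigroups of idempotents) `S` with the
condition (C) (`ThreeCol`): whenever `a, b, c` are elements of `S` such that none of
`a * b, a * c, b * c` is equal to `a * b * c`, the element `a * b * c` is the zero of `S` and there
is a colouring of `S` with three colours, `a, b, c` having different colours, such that any three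
elements of different colours have product zero.

1. `SLC` is an inclusive variety. It is generated by two semilattices, the five subsets
`∅, {0}, {1}, {0, 1}, {0, 1, 2}` and the seven nonempty subsets of `{0, 1, 2}`, both under union,
and it has exactly twelve inclusive subvarieties.

2. An inclusive variety of semilattices has countably many inclusive subvarieties if and only if it
has finitely many, if and only if it is one of these twelve.

3. An inclusive variety of semigroups with a member which is a semilattice without (C) has at
least continuum many inclusive subvarieties.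

4. The inclusive variety generated by a family of semilattices has countably many inclusive
subvarieties if and only if all semilattices of the family satisfy (C). -/
theorem Pool.Agent.Results.MP_999024_al.Semilattices.result :
    (IsInclVariety SLC.{u} ∧ SLC.{u} = genF (fun i : {i : Fin 8 // 6 ≤ i} => US.{u} i.1) ∧
      (InclSub SLC.{u}).ncard = 12) ∧
    (∀ (V : SgClass.{u}), IsInclVariety V →
      (∀ (S : Type u) [Semigroup S], V S → (∀ x y : S, x * y = y * x) ∧ ∀ x : S, x * x = x) →
      ((InclSub V).Countable ↔ (InclSub V).Finite) ∧
      ((InclSub V).Finite ↔ V ∈ InclSub SLC.{u})) ∧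
    (∀ (V : SgClass.{u}), IsInclVariety V → ∀ (S : Type u) [Semigroup S], V S →
      (∀ x y : S, x * y = y * x) → (∀ x : S, x * x = x) → ¬ ThreeCol S →
      ∃ F : Set ℕ → SgClass.{u}, Function.Injective F ∧ ∀ A, F A ∈ InclSub V) ∧
    (∀ (ι : Type u) (S : ι → Type u) [∀ i, Semigroup (S i)],
      (∀ i, (∀ x y : S i, x * y = y * x) ∧ ∀ x : S i, x * x = x) →
      ((InclSub (genF S)).Countable ↔ ∀ i, ThreeCol (S i))) := by
  refine ⟨⟨slc_isInclVariety, slc_eq, ncard_slc⟩, ?_, ?_, ?_⟩
  · intro V hV hSL
    have h1 : (InclSub V).Countable → V ∈ InclSub SLC.{u} := by
      intro hc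
      refine ⟨hV, fun S _ hS => ⟨hSL S hS, ?_⟩⟩
      by_contra hcon
      exact Pool.Agent.helper45.Inc.not_countable_of_continuum
        (continuum_of_not_threeCol hV hS (hSL S hS) hcon) hc
    have h2 : V ∈ InclSub SLC.{u} → (InclSub V).Finite := fun h => finite_of_slc h.2
    exact ⟨⟨fun h => h2 (h1 h), fun h => h.countable⟩, ⟨fun h => h1 h.countable, h2⟩⟩
  · intro V hV S _ hS hc hi h
    exact continuum_of_not_threeCol hV hS ⟨hc, hi⟩ h
  · intro ι S _ hS
    constructor
    · intro hc i
      by_contra hcon
      exact Pool.Agent.helper45.Inc.not_countable_of_continuum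
        (continuum_of_not_threeCol (genF_isInclVariety S) (genF_mem S i) (hS i) hcon) hc
    · intro h
      have h1 : (InclSub (genF S)).Finite := finite_of_slc fun T _ hT =>
        ⟨sl_gen hS hT, threeCol_gen hS h hT⟩
      exact h1.countable
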